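import Pool.Agent.Y494.PK.Stm

/-! Counting adjacent pairs and short walks in graphs without long paths: PK-A34. -/

set_option autoImplicit false

namespace Pool.Agent.Y43.PK

open Classical Pool.Agent.Y494.PK

/-- a set is bounded by the size of the target times the size of the fibres -/
theorem ncard_fiber_le {A B : Type} [Finite A] [Finite B] (S : Set A) (T : Set B) (f : A → B)
    (hf : ∀ a ∈ S, f a ∈ T) (n : ℕ) (h : ∀ b ∈ T, {a | a ∈ S ∧ f a = b}.ncard ≤ n) :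
    S.ncard ≤ T.ncard * n := by
  haveI := Fintype.ofFinite A
  haveI := Fintype.ofFinite B
  rw [Set.ncard_eq_toFinset_card' S, Set.ncard_eq_toFinset_card' T, mul_comm]
  refine Finset.card_le_mul_card_image_of_maps_to (f := f) ?_ n ?_
  · intro a ha
    rw [Set.mem_toFinset] at ha ⊢
    exact hf a ha
  · intro b hb
    rw [Set.mem_toFinset] at hb
    have h1 := h b hb
    rw [Set.ncard_eq_toFinset_card'] at h1
    refine le_trans (Finset.card_le_card ?_) h1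
    intro a ha
    rw [Finset.mem_filter, Set.mem_toFinset] at ha
    rw [Set.mem_toFinset]
    exact ha

section
variable {V : Type} [Fintype V] {G : SimpleGraph V} {l : ℕ}

/-- extension of paths in a set with large degrees -/
theorem long_of_deg (W : Finset V) (hW : W.Nonempty)
    (h : ∀ v ∈ W, 2 * l ≤ (W.filter (G.Adj v)).card) (k : ℕ) (hk : k ≤ 2 * l) :
    ∃ (v : V) (q : List V), LP G (v :: q) ∧ q.length = k ∧ ∀ u ∈ v :: q, u ∈ W := by
  induction k with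
  | zero =>
    obtain ⟨v, hv⟩ := hW
    refine ⟨v, [], ⟨List.nodup_singleton v, List.isChain_singleton v⟩, rfl, ?_⟩
    intro u hu
    rw [List.mem_singleton] at hu
    rw [hu]; exact hv
  | succ k ih =>
    obtain ⟨v, q, ⟨hn, hc⟩, hl, hm⟩ := ih (by omega)
    have hv := hm v List.mem_cons_self
    have hcard : q.toFinset.card < (W.filter (G.Adj v)).card := by
      have := q.toFinset_card_le
      have := h v hv
      omega
    obtain ⟨u, hu, hu2⟩ := Finset.exists_mem_notMem_of_card_lt_card hcard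
    rw [Finset.mem_filter] at hu
    rw [List.mem_toFinset] at hu2
    refine ⟨u, v :: q, ⟨?_, ?_⟩, by rw [List.length_cons, hl], ?_⟩
    · rw [List.nodup_cons]
      refine ⟨?_, hn⟩
      rw [List.mem_cons]
      rintro (h1 | h1)
      · exact hu.2.ne h1.symm
      · exact hu2 h1
    · rw [List.isChain_cons_cons]
      exact ⟨hu.2.symm, hc⟩
    · intro z hz
      rw [List.mem_cons] at hz
      rcases hz with rfl | hz
      · exact hu.1
      · exact hm z hz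

theorem exists_low (hG : NoLong G l) (W : Finset V) (hW : W.Nonempty) :
    ∃ v ∈ W, (W.filter (G.Adj v)).card ≤ 2 * l := by
  by_contra hc
  push Not at hc
  obtain ⟨v, q, hp, hl, -⟩ := long_of_deg (G := G) (l := l) W hW (fun v hv => (hc v hv).le)
    (2 * l) le_rfl
  have := hG _ hp
  rw [List.length_cons, hl] at this
  omega

/-- a rank function with few higher neighbours -/
theorem exists_rank (hG : NoLong G l) (m : ℕ) : ∀ W : Finset V, W.card = m →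
    ∃ rk : V → ℕ, (∀ a ∈ W, ∀ b ∈ W, rk a = rk b → a = b) ∧
      ∀ v ∈ W, (W.filter (fun w => G.Adj v w ∧ rk v < rk w)).card ≤ 2 * l := by
  induction m with
  | zero =>
    intro W hW
    rw [Finset.card_eq_zero] at hW
    subst hW
    exact ⟨fun _ => 0, by simp, by simp⟩
  | succ m ih =>
    intro W hW
    obtain ⟨v, hv, hd⟩ := exists_low hG W (Finset.card_pos.1 (by omega))
    obtain ⟨rk, h1, h2⟩ := ih (W.erase v) (by rw [Finset.card_erase_of_mem hv]; omega)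
    refine ⟨fun w => if w = v then 0 else rk w + 1, ?_, ?_⟩
    · intro a ha b hb hab
      simp only at hab
      by_cases hav : a = v
      · by_cases hbv : b = v
        · rw [hav, hbv]
        · rw [if_pos hav, if_neg hbv] at hab
          omega
      · by_cases hbv : b = v
        · rw [if_neg hav, if_pos hbv] at hab
          omega
        · rw [if_neg hav, if_neg hbv] at hab
          exact h1 a (Finset.mem_erase.2 ⟨hav, ha⟩) b (Finset.mem_erase.2 ⟨hbv, hb⟩) (by omega)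
    · intro w hw
      by_cases hwv : w = v
      · subst hwv
        refine le_trans (Finset.card_le_card ?_) hd
        intro z hz
        rw [Finset.mem_filter] at hz ⊢
        exact ⟨hz.1, hz.2.1⟩
      · refine le_trans (Finset.card_le_card ?_) (h2 w (Finset.mem_erase.2 ⟨hwv, hw⟩))
        intro z hz
        rw [Finset.mem_filter] at hz ⊢
        obtain ⟨hz1, hz2, hz3⟩ := hz
        simp only at hz3
        rw [if_neg hwv] at hz3
        by_cases hzv : z = v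
        · rw [if_pos hzv] at hz3
          omega
        · rw [if_neg hzv] at hz3
          exact ⟨Finset.mem_erase.2 ⟨hzv, hz1⟩, hz2, by omega⟩

theorem exists_rk (hG : NoLong G l) : ∃ rk : V → ℕ, Function.Injective rk ∧
    ∀ v, {w | G.Adj v w ∧ rk v < rk w}.ncard ≤ 2 * l := by
  obtain ⟨rk, h1, h2⟩ := exists_rank hG _ (Finset.univ : Finset V) rfl
  refine ⟨rk, fun a b hab => h1 a (Finset.mem_univ _) b (Finset.mem_univ _) hab, fun v => ?_⟩
  have h3 := h2 v (Finset.mem_univ _)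
  rw [Set.ncard_eq_toFinset_card']
  convert h3 using 2
  ext w
  simp

end

theorem a3 : S_A3 := by
  intro V _ G l hG
  obtain ⟨rk, hinj, hrk⟩ := exists_rk hG
  have h1 : {p : V × V | G.Adj p.1 p.2 ∧ rk p.1 < rk p.2}.ncard ≤
      (Set.univ : Set V).ncard * (2 * l) := by
    refine ncard_fiber_le _ (Set.univ : Set V) Prod.fst (fun _ _ => Set.mem_univ _) _ fun b _ => ?_
    refine le_trans (Set.ncard_le_ncard_of_injOn Prod.snd ?_ ?_) (hrk b)
    · rintro ⟨x, y⟩ ⟨⟨h1, h2⟩, h3⟩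
      simp only at h1 h2 h3
      subst h3
      exact ⟨h1, h2⟩
    · rintro ⟨x, y⟩ ⟨_, h3⟩ ⟨x', y'⟩ ⟨_, h3'⟩ h4
      simp only at h3 h3' h4
      rw [h3, h3', h4]
  have h2 : {p : V × V | G.Adj p.1 p.2 ∧ rk p.2 < rk p.1}.ncard ≤
      (Set.univ : Set V).ncard * (2 * l) := by
    refine ncard_fiber_le _ (Set.univ : Set V) Prod.snd (fun _ _ => Set.mem_univ _) _ fun b _ => ?_
    refine le_trans (Set.ncard_le_ncard_of_injOn Prod.fst ?_ ?_) (hrk b)
    · rintro ⟨x, y⟩ ⟨⟨h1, h2⟩, h3⟩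
      simp only at h1 h2 h3
      subst h3
      exact ⟨h1.symm, h2⟩
    · rintro ⟨x, y⟩ ⟨_, h3⟩ ⟨x', y'⟩ ⟨_, h3'⟩ h4
      simp only at h3 h3' h4
      rw [h3, h3', h4]
  have h3 : {p : V × V | G.Adj p.1 p.2} ⊆
      {p : V × V | G.Adj p.1 p.2 ∧ rk p.1 < rk p.2} ∪
        {p : V × V | G.Adj p.1 p.2 ∧ rk p.2 < rk p.1} := by
    rintro ⟨a, b⟩ hab
    rcases lt_trichotomy (rk a) (rk b) with h | h | h
    · exact Or.inl ⟨hab, h⟩
    · exact absurd (hinj h) (G.ne_of_adj hab)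
    · exact Or.inr ⟨hab, h⟩
  have h4 := (Set.ncard_le_ncard h3 (Set.toFinite _)).trans (Set.ncard_union_le _ _)
  rw [Set.ncard_univ, Nat.card_eq_fintype_card] at h1 h2
  nlinarith

theorem a4 : S_A4 := by
  intro V _ G l D L hG hD
  obtain ⟨rk, hinj, hrk⟩ := exists_rk hG
  have hE := a3 V G l hG
  have e1 : {p : (V × V) × V | G.Adj p.1.1 p.1.2 ∧ G.Adj p.1.2 p.2 ∧ rk p.1.2 < rk p.2}.ncard ≤
      (4 * l * Fintype.card V) * (2 * l) := by
    refine le_trans (ncard_fiber_le _ {q : V × V | G.Adj q.1 q.2} Prod.fst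
      (fun p hp => hp.1) (2 * l) fun b _ => ?_) (Nat.mul_le_mul_right _ hE)
    refine le_trans (Set.ncard_le_ncard_of_injOn Prod.snd ?_ ?_) (hrk b.2)
    · rintro ⟨x, y⟩ ⟨⟨_, h1, h2⟩, h3⟩
      simp only at h1 h2 h3
      subst h3
      exact ⟨h1, h2⟩
    · rintro ⟨x, y⟩ ⟨_, h3⟩ ⟨x', y'⟩ ⟨_, h3'⟩ h4
      simp only at h3 h3' h4
      rw [h3, h3', h4]
  have e2 : {p : (V × V) × (V × V) | (G.Adj p.1.1 p.1.2 ∧ G.Adj p.1.2 p.2.1 ∧
      G.Adj p.2.1 p.2.2 ∧ p.1.2 ∈ L ∧ p.2.1 ∈ L) ∧ rk p.1.2 < rk p.2.1}.ncard ≤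
      ((4 * l * Fintype.card V) * (2 * l)) * D := by
    refine le_trans (ncard_fiber_le _
      {p : (V × V) × V | (G.Adj p.1.1 p.1.2 ∧ G.Adj p.1.2 p.2 ∧ rk p.1.2 < rk p.2) ∧ p.2 ∈ L}
      (fun p => (p.1, p.2.1)) ?_ D fun b hb => ?_)
      (Nat.mul_le_mul_right _ (le_trans (Set.ncard_le_ncard ?_ (Set.toFinite _)) e1))
    · rintro ⟨⟨a, b⟩, ⟨c, d⟩⟩ ⟨⟨h1, h2, h3, h4, h5⟩, h6⟩
      exact ⟨⟨h1, h2, h6⟩, h5⟩
    · refine le_trans (Set.ncard_le_ncard_of_injOn (fun p => p.2.2) ?_ ?_) (hD b.2 hb.2)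
      · rintro ⟨⟨a, b⟩, ⟨c, d⟩⟩ ⟨⟨⟨h1, h2, h3, h4, h5⟩, h6⟩, h7⟩
        simp only at h3 h7
        rw [← h7]
        exact h3
      · rintro ⟨⟨a, b⟩, ⟨c, d⟩⟩ ⟨_, h3⟩ ⟨⟨a', b'⟩, ⟨c', d'⟩⟩ ⟨_, h3'⟩ h4
        simp only [] at h3 h3' h4
        rw [← h3'] at h3
        simp only [Prod.mk.injEq] at h3 ⊢
        exact ⟨h3.1, h3.2, h4⟩
    · rintro p ⟨hp, _⟩
      exact hp
  have e3 : {p : (V × V) × (V × V) | (G.Adj p.1.1 p.1.2 ∧ G.Adj p.1.2 p.2.1 ∧
      G.Adj p.2.1 p.2.2 ∧ p.1.2 ∈ L ∧ p.2.1 ∈ L) ∧ rk p.2.1 < rk p.1.2}.ncard ≤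
      ((4 * l * Fintype.card V) * (2 * l)) * D := by
    refine le_trans (Set.ncard_le_ncard_of_injOn
      (fun p : (V × V) × (V × V) => (((p.2.2, p.2.1), (p.1.2, p.1.1)) : (V × V) × (V × V)))
      ?_ ?_) e2
    · rintro ⟨⟨a, b⟩, ⟨c, d⟩⟩ ⟨⟨h1, h2, h3, h4, h5⟩, h6⟩
      exact ⟨⟨h3.symm, h2.symm, h1.symm, h5, h4⟩, h6⟩
    · rintro ⟨⟨a, b⟩, ⟨c, d⟩⟩ _ ⟨⟨a', b'⟩, ⟨c', d'⟩⟩ _ h4
      simp only [Prod.mk.injEq] at h4 ⊢
      tauto
  have h3 : {p : (V × V) × (V × V) | G.Adj p.1.1 p.1.2 ∧ G.Adj p.1.2 p.2.1 ∧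
      G.Adj p.2.1 p.2.2 ∧ p.1.2 ∈ L ∧ p.2.1 ∈ L} ⊆
      {p : (V × V) × (V × V) | (G.Adj p.1.1 p.1.2 ∧ G.Adj p.1.2 p.2.1 ∧
        G.Adj p.2.1 p.2.2 ∧ p.1.2 ∈ L ∧ p.2.1 ∈ L) ∧ rk p.1.2 < rk p.2.1} ∪
      {p : (V × V) × (V × V) | (G.Adj p.1.1 p.1.2 ∧ G.Adj p.1.2 p.2.1 ∧
        G.Adj p.2.1 p.2.2 ∧ p.1.2 ∈ L ∧ p.2.1 ∈ L) ∧ rk p.2.1 < rk p.1.2} := by
    intro p hp
    rcases lt_trichotomy (rk p.1.2) (rk p.2.1) with h | h | h
    · exact Or.inl ⟨hp, h⟩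
    · exact absurd (hinj h) (G.ne_of_adj hp.2.1)
    · exact Or.inr ⟨hp, h⟩
  have h4 := (Set.ncard_le_ncard h3 (Set.toFinite _)).trans (Set.ncard_union_le _ _)
  refine h4.trans (le_trans (Nat.add_le_add e2 e3) (le_of_eq ?_))
  ring

end Pool.Agent.Y43.PK
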