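import Pool.Agent.Y43.PK.A34

/-! Counting directed paths: PK-A5. -/

set_option autoImplicit false

namespace Pool.Agent.Y43.PK

open Classical Pool.Agent.Y494.PK

section
variable {V : Type} [Fintype V] {G : SimpleGraph V} {l : ℕ}

/-- directed paths with prescribed pairs at the places of `s` -/
theorem count_fix (hA : S_A3) (hG : NoLong G l) (s : Finset (Fin l)) (c : Fin l → V × V) :
    {p : (Fin l → V) × (Fin l → V) | IsDP G l p.1 p.2 ∧ ∀ i ∈ s, (p.1 i, p.2 i) = c i}.ncard ≤
      (4 * l * Fintype.card V) ^ (l - s.card) := by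
  set E : Finset (V × V) := Finset.univ.filter (fun p => G.Adj p.1 p.2) with hE
  have hEc : E.card ≤ 4 * l * Fintype.card V := by
    have h1 := hA V G l hG
    rw [Set.ncard_eq_toFinset_card'] at h1
    convert h1 using 2
    ext p
    simp [hE]
  set F : Finset (Fin l → V × V) :=
    Fintype.piFinset (fun i => if i ∈ s then ({c i} : Finset (V × V)) else E) with hF
  have h1 : {p : (Fin l → V) × (Fin l → V) | IsDP G l p.1 p.2 ∧
      ∀ i ∈ s, (p.1 i, p.2 i) = c i}.ncard ≤ (F : Set (Fin l → V × V)).ncard := by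
    refine Set.ncard_le_ncard_of_injOn (fun p i => (p.1 i, p.2 i)) ?_ ?_ (Set.toFinite _)
    · rintro p ⟨hp, hs⟩
      rw [Finset.mem_coe, hF, Fintype.mem_piFinset]
      intro i
      by_cases hi : i ∈ s
      · rw [if_pos hi, Finset.mem_singleton]
        exact hs i hi
      · rw [if_neg hi, hE, Finset.mem_filter]
        exact ⟨Finset.mem_univ _, hp.mat i⟩
    · rintro ⟨u, w⟩ _ ⟨u', w'⟩ _ h
      rw [Prod.mk.injEq]
      constructor
      · funext i
        exact congrArg Prod.fst (congrFun h i)
      · funext i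
        exact congrArg Prod.snd (congrFun h i)
  rw [Set.ncard_coe_finset, hF, Fintype.card_piFinset] at h1
  refine h1.trans ?_
  have h2 : ∏ i, (if i ∈ s then ({c i} : Finset (V × V)) else E).card =
      E.card ^ (l - s.card) := by
    have h3 : ∀ i, (if i ∈ s then ({c i} : Finset (V × V)) else E).card =
        if i ∈ s then 1 else E.card := by
      intro i
      split_ifs
      · exact Finset.card_singleton _
      · rfl
    rw [Finset.prod_congr rfl fun i _ => h3 i, Finset.prod_ite, Finset.prod_const_one, one_mul,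
      Finset.prod_const, Finset.filter_not, Finset.filter_mem_eq_inter, Finset.univ_inter,
      Finset.card_sdiff_of_subset (Finset.subset_univ s), Finset.card_univ, Fintype.card_fin]
  rw [h2]
  exact Nat.pow_le_pow_left hEc _

end

theorem a5a (hA : S_A3) : S_A5a := by
  intro V _ G l hG j P
  refine ncard_fiber_le _ P (fun p => (p.1 j, p.2 j)) (fun p hp => hp.2) _ fun b _ => ?_
  have h1 := count_fix hA hG {j} (fun _ => b)
  rw [Finset.card_singleton] at h1
  refine le_trans (Set.ncard_le_ncard ?_ (Set.toFinite _)) h1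
  rintro p ⟨⟨hp, _⟩, hb⟩
  refine ⟨hp, fun i hi => ?_⟩
  rw [Finset.mem_singleton] at hi
  subst hi
  exact hb

theorem a5b (hA : S_A3) : S_A5b := by
  intro V _ G l hG j k P hjk
  refine ncard_fiber_le _ P (fun p => ((p.1 j, p.2 j), (p.1 k, p.2 k))) (fun p hp => hp.2) _
    fun b _ => ?_
  have h1 := count_fix hA hG {j, k} (fun i => if i = j then b.1 else b.2)
  rw [Finset.card_pair hjk] at h1
  refine le_trans (Set.ncard_le_ncard ?_ (Set.toFinite _)) h1
  rintro p ⟨⟨hp, _⟩, hb⟩
  refine ⟨hp, fun i hi => ?_⟩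
  rw [Finset.mem_insert, Finset.mem_singleton] at hi
  rcases hi with rfl | rfl
  · rw [if_pos rfl]
    exact congrArg Prod.fst hb
  · rw [if_neg hjk.symm]
    exact congrArg Prod.snd hb

theorem a5 (hA : S_A3) : S_A5 := by
  intro V _ G l hG
  rcases isEmpty_or_nonempty V with hV | ⟨⟨v⟩⟩
  · have h1 : Fintype.card V = 0 := Fintype.card_eq_zero
    rcases Nat.eq_zero_or_pos l with rfl | hl
    · rw [pow_zero]
      have : Subsingleton ((Fin 0 → V) × (Fin 0 → V)) := inferInstance
      exact Set.ncard_le_one_of_subsingleton _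
    · have h2 : DP G l = ∅ := by
        rw [Set.eq_empty_iff_forall_notMem]
        intro p _
        exact hV.elim (p.1 ⟨0, hl⟩)
      rw [h2, Set.ncard_empty]
      exact Nat.zero_le _
  · have h1 := count_fix hA hG (∅ : Finset (Fin l)) (fun _ => (v, v))
    rw [Finset.card_empty, Nat.sub_zero] at h1
    refine le_trans (Set.ncard_le_ncard ?_ (Set.toFinite _)) h1
    intro p hp
    exact ⟨hp, fun i hi => absurd hi (Finset.notMem_empty i)⟩

end Pool.Agent.Y43.PK
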