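import Pool.Agent.Y494.PK.Stm

/-! Few directed paths have another pattern: PK-B1. -/

set_option autoImplicit false

namespace Pool.Agent.Y43.PK

open Classical Pool.Agent.Y494.PK

section
variable {V : Type} {G : SimpleGraph V} {l : ℕ}

/-- paths given by functions -/
theorem noLong_fn (hG : NoLong G l) {m : ℕ} (f : Fin m → V) (hf : Function.Injective f)
    (h : ∀ i j : Fin m, (j : ℕ) = i + 1 → G.Adj (f i) (f j)) : m ≤ 2 * l := by
  have h1 : LP G (List.ofFn f) := by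
    refine ⟨List.nodup_ofFn.2 hf, ?_⟩
    rw [List.isChain_iff_getElem]
    intro i hi
    rw [List.getElem_ofFn, List.getElem_ofFn]
    exact h _ _ rfl
  have h2 := hG _ h1
  rwa [List.length_ofFn] at h2

/-- the vertices of a directed path in their order -/
def seq (u w : Fin l → V) (i : Fin (2 * l)) : V :=
  if (i : ℕ) % 2 = 0 then u ⟨(i : ℕ) / 2, by omega⟩ else w ⟨(i : ℕ) / 2, by omega⟩

theorem seq_inj {u w : Fin l → V} (h : IsDP G l u w) : Function.Injective (seq u w) := by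
  intro i j hij
  unfold seq at hij
  by_cases hi : (i : ℕ) % 2 = 0
  · by_cases hj : (j : ℕ) % 2 = 0
    · rw [if_pos hi, if_pos hj] at hij
      have := congrArg Fin.val (h.uinj hij)
      simp only at this
      exact Fin.ext (by omega)
    · rw [if_pos hi, if_neg hj] at hij
      exact absurd hij (h.uw _ _)
  · by_cases hj : (j : ℕ) % 2 = 0
    · rw [if_neg hi, if_pos hj] at hij
      exact absurd hij.symm (h.uw _ _)
    · rw [if_neg hi, if_neg hj] at hij
      have := congrArg Fin.val (h.winj hij)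
      simp only at this
      exact Fin.ext (by omega)

theorem seq_adj {u w : Fin l → V} (h : IsDP G l u w) (i j : Fin (2 * l)) (hij : (j : ℕ) = i + 1) :
    G.Adj (seq u w i) (seq u w j) := by
  unfold seq
  by_cases hi : (i : ℕ) % 2 = 0
  · have hj : ¬ (j : ℕ) % 2 = 0 := by omega
    rw [if_pos hi, if_neg hj]
    have e : (⟨(j : ℕ) / 2, by omega⟩ : Fin l) = ⟨(i : ℕ) / 2, by omega⟩ := Fin.ext (by
      simp only; omega)
    rw [e]
    exact h.mat _
  · have hj : (j : ℕ) % 2 = 0 := by omega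
    rw [if_neg hi, if_pos hj]
    exact h.con _ _ (by simp only; omega)

/-- the first vertex of a directed path has small degree -/
theorem deg_first [Fintype V] (hG : NoLong G l) {u w : Fin l → V} (h : IsDP G l u w) (hl : 0 < l) :
    dg G (u ⟨0, hl⟩) < 2 * l := by
  by_contra hc
  push Not at hc
  have h0 : seq u w ⟨0, by omega⟩ = u ⟨0, hl⟩ := by
    unfold seq
    rw [if_pos (by simp)]
    exact congrArg u (Fin.ext (Nat.zero_div 2))
  -- the neighbours are not all in the path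
  have hex : ∃ x, G.Adj (u ⟨0, hl⟩) x ∧ ∀ i, seq u w i ≠ x := by
    by_contra hcon
    push Not at hcon
    have hsub : G.neighborSet (u ⟨0, hl⟩) ⊆ Set.range (seq u w) \ {u ⟨0, hl⟩} := by
      intro x hx
      obtain ⟨i, hi⟩ := hcon x hx
      exact ⟨⟨i, hi⟩, fun h1 => G.ne_of_adj hx (Set.mem_singleton_iff.1 h1).symm⟩
    have h1 := Set.ncard_le_ncard hsub (Set.toFinite _)
    rw [Set.ncard_sdiff_singleton_of_mem (show u ⟨0, hl⟩ ∈ Set.range (seq u w) from ⟨_, h0⟩)] at h1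
    have h2 : (Set.range (seq u w)).ncard = 2 * l := by
      rw [← Set.image_univ, Set.ncard_image_of_injective _ (seq_inj h), Set.ncard_univ]
      simp
    rw [h2] at h1
    unfold dg at hc
    omega
  obtain ⟨x, hx, hxi⟩ := hex
  have h3 := noLong_fn hG (m := 2 * l + 1) (Fin.cons x (seq u w)) (by
    rw [Fin.cons_injective_iff]
    exact ⟨fun ⟨i, hi⟩ => hxi i hi, seq_inj h⟩) (by
    intro i j hij
    obtain ⟨j', hj'⟩ : ∃ j' : Fin (2 * l), j = Fin.succ j' :=
      ⟨⟨(j : ℕ) - 1, by omega⟩, Fin.ext (by rw [Fin.val_succ]; simp only; omega)⟩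
    subst hj'
    rw [Fin.val_succ] at hij
    revert hij
    refine Fin.cases (fun hij => ?_) (fun i' hij => ?_) i
    · have e : seq u w j' = u ⟨0, hl⟩ := by
        rw [← h0]
        exact congrArg _ (Fin.ext (by simpa using hij))
      rw [Fin.cons_zero, Fin.cons_succ, e]
      exact hx.symm
    · rw [Fin.cons_succ, Fin.cons_succ]
      exact seq_adj h _ _ (by
        rw [Fin.val_succ] at hij
        omega))
  omega

/-- the reverse of a directed path -/
theorem isDP_rev {u w : Fin l → V} (h : IsDP G l u w) :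
    IsDP G l (fun i => w i.rev) (fun i => u i.rev) where
  uinj := fun _ _ hab => Fin.rev_injective (h.winj hab)
  winj := fun _ _ hab => Fin.rev_injective (h.uinj hab)
  uw := fun _ _ => (h.uw _ _).symm
  mat := fun _ => (h.mat _).symm
  con := fun i j hij => (h.con j.rev i.rev (by
    rw [Fin.val_rev, Fin.val_rev]
    omega)).symm

theorem deg_last [Fintype V] (hG : NoLong G l) {u w : Fin l → V} (h : IsDP G l u w) (hl : 0 < l) :
    dg G (w ⟨l - 1, by omega⟩) < 2 * l := by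
  have h1 := deg_first hG (isDP_rev h) hl
  have e : (⟨0, hl⟩ : Fin l).rev = ⟨l - 1, by omega⟩ := Fin.ext (by
    rw [Fin.val_rev])
  simp only [e] at h1
  exact h1

end

/-- the two kinds of exceptional paths -/
theorem two_kinds {V : Type} [Fintype V] {G : SimpleGraph V} {l : ℕ} {S L : Set V} (hl : 2 ≤ l)
    (hG : NoLong G l) (hdis : ∀ v ∈ S, v ∉ L) (hS : ∀ a ∈ S, 2 * l ≤ dg G a)
    {u w : Fin l → V} (h : IsDP G l u w) (hSL : ∀ j, u j ∈ S ∪ L ∧ w j ∈ S ∪ L)
    (h1 : ∀ a, 1 ≤ a → a < l → ¬ Pat1 S L u w a) (h2 : ∀ a, a < l → ¬ Pat2 S L u w a) :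
    (∃ j, u j ∈ S ∧ w j ∈ S) ∨
      ∃ (j : ℕ) (hj : j + 1 < l), w ⟨j, by omega⟩ ∈ L ∧ u ⟨j + 1, hj⟩ ∈ L := by
  by_contra hc
  push Not at hc
  obtain ⟨hc1, hc2⟩ := hc
  have huS : ∀ j, u j ∉ L → u j ∈ S := fun j hj => (hSL j).1.resolve_right hj
  have hwS : ∀ j, w j ∉ L → w j ∈ S := fun j hj => (hSL j).2.resolve_right hj
  have huL : ∀ j, w j ∈ S → u j ∈ L := fun j hj => by
    by_contra h3
    exact hc1 j (huS j h3) hj
  have hwL : ∀ j, u j ∈ S → w j ∈ L := fun j hj => by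
    by_contra h3
    exact hc1 j hj (hwS j h3)
  by_cases hex : ∃ a : ℕ, ∃ ha : a < l, w ⟨a, ha⟩ ∈ L
  · -- the first index with `w a ∈ L`
    obtain ⟨ha, haL⟩ := Nat.find_spec hex
    set a := Nat.find hex with hadef
    have hmin : ∀ j : Fin l, (j : ℕ) < a → u j ∈ L ∧ w j ∈ S := by
      intro j hj
      have h3 : w j ∈ S := hwS j fun h4 => Nat.find_min hex hj ⟨j.2, h4⟩
      exact ⟨huL j h3, h3⟩
    have hafter : ∀ d : ℕ, ∀ hd : a + 1 + d < l,
        u ⟨a + 1 + d, hd⟩ ∈ S ∧ w ⟨a + 1 + d, hd⟩ ∈ L := by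
      intro d
      induction d with
      | zero =>
        intro hd
        have h3 : u ⟨a + 1, hd⟩ ∈ S := huS _ (hc2 a hd haL)
        exact ⟨h3, hwL _ h3⟩
      | succ d ih =>
        intro hd
        have h3 : u ⟨a + 1 + d + 1, hd⟩ ∈ S := huS _ (hc2 (a + 1 + d) hd (ih (by omega)).2)
        exact ⟨h3, hwL _ h3⟩
    have hafter' : ∀ j : Fin l, a < (j : ℕ) → u j ∈ S ∧ w j ∈ L := by
      intro j hj
      have h3 := hafter ((j : ℕ) - (a + 1)) (by omega)
      have e : (⟨a + 1 + ((j : ℕ) - (a + 1)), by omega⟩ : Fin l) = j := Fin.ext (by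
        simp only; omega)
      rwa [e] at h3
    by_cases hua : u ⟨a, ha⟩ ∈ L
    · refine h2 a ha fun j => ⟨hmin j, fun hj => ?_, hafter' j⟩
      have e : j = ⟨a, ha⟩ := Fin.ext hj
      rw [e]
      exact ⟨hua, haL⟩
    · have huaS := huS _ hua
      rcases Nat.eq_zero_or_pos a with h0 | h0
      · have h3 := deg_first hG h (by omega)
        have e : (⟨0, by omega⟩ : Fin l) = ⟨a, ha⟩ := Fin.ext h0.symm
        rw [e] at h3
        have := hS _ huaS
        omega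
      · refine h1 a h0 ha fun j => ⟨hmin j, fun hj => ?_⟩
        rcases Nat.eq_or_lt_of_le hj with h3 | h3
        · have e : j = ⟨a, ha⟩ := Fin.ext h3.symm
          rw [e]
          exact ⟨huaS, haL⟩
        · exact hafter' j h3
  · push Not at hex
    have h3 := deg_last hG h (by omega)
    have := hS _ (hwS ⟨l - 1, by omega⟩ (hex _ _))
    omega

theorem b1 (hA4 : S_A4) (hA5a : S_A5a) (hA5b : S_A5b) : S_B1 := by
  intro V _ G l D S L hl hG hdis hD hS
  -- the two families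
  let F1 : Fin l → Set ((Fin l → V) × (Fin l → V)) := fun j =>
    {p | IsDP G l p.1 p.2 ∧ (p.1 j, p.2 j) ∈ S ×ˢ S}
  let P2 : Set ((V × V) × (V × V)) := {p | G.Adj p.1.1 p.1.2 ∧ G.Adj p.1.2 p.2.1 ∧
    G.Adj p.2.1 p.2.2 ∧ p.1.2 ∈ L ∧ p.2.1 ∈ L}
  let F2 : Fin l → Set ((Fin l → V) × (Fin l → V)) := fun j =>
    {p | ∃ hj : (j : ℕ) + 1 < l, IsDP G l p.1 p.2 ∧
      ((p.1 j, p.2 j), (p.1 ⟨(j : ℕ) + 1, hj⟩, p.2 ⟨(j : ℕ) + 1, hj⟩)) ∈ P2}
  have hF1 : ∀ j, (F1 j).ncard ≤ S.ncard ^ 2 * (4 * l * Fintype.card V) ^ (l - 1) := by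
    intro j
    have h3 := hA5a V G l hG j (S ×ˢ S)
    rw [Set.ncard_prod, ← pow_two] at h3
    exact h3
  have hP2 : P2.ncard ≤ 16 * l ^ 2 * D * Fintype.card V := hA4 V G l D L hG hD
  have hF2 : ∀ j, (F2 j).ncard ≤
      (16 * l ^ 2 * D * Fintype.card V) * (4 * l * Fintype.card V) ^ (l - 2) := by
    intro j
    by_cases hj : (j : ℕ) + 1 < l
    · have h3 := hA5b V G l hG j ⟨(j : ℕ) + 1, hj⟩ P2 (by
        intro h4
        have := congrArg Fin.val h4
        simp only at this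
        omega)
      refine le_trans (Set.ncard_le_ncard ?_ (Set.toFinite _))
        (h3.trans (Nat.mul_le_mul_right _ hP2))
      rintro p ⟨_, hp1, hp2⟩
      exact ⟨hp1, hp2⟩
    · have : F2 j = ∅ := by
        rw [Set.eq_empty_iff_forall_notMem]
        rintro p ⟨hj', _⟩
        exact hj hj'
      rw [this, Set.ncard_empty]
      exact Nat.zero_le _
  have hsub : {p : (Fin l → V) × (Fin l → V) | IsDP G l p.1 p.2 ∧
      (∀ j, p.1 j ∈ S ∪ L ∧ p.2 j ∈ S ∪ L) ∧
      (∀ a, 1 ≤ a → a < l → ¬ Pat1 S L p.1 p.2 a) ∧ (∀ a, a < l → ¬ Pat2 S L p.1 p.2 a)} ⊆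
      (⋃ j, F1 j) ∪ (⋃ j, F2 j) := by
    rintro ⟨u, w⟩ ⟨hp, hSL, h1, h2⟩
    rcases two_kinds hl hG hdis hS hp hSL h1 h2 with ⟨j, hj1, hj2⟩ | ⟨j, hj, h3, h4⟩
    · exact Or.inl (Set.mem_iUnion.2 ⟨j, hp, hj1, hj2⟩)
    · refine Or.inr (Set.mem_iUnion.2 ⟨⟨j, by omega⟩, hj, hp, ?_⟩)
      exact ⟨hp.mat _, hp.con _ _ rfl, hp.mat _, h3, h4⟩
  have hU : ∀ (F : Fin l → Set ((Fin l → V) × (Fin l → V))) (m : ℕ), (∀ j, (F j).ncard ≤ m) →
      (⋃ j, F j).ncard ≤ l * m := by
    intro F m hF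
    have h3 : (⋃ j, F j) = ⋃ j ∈ (Finset.univ : Finset (Fin l)), F j := by simp
    rw [h3]
    refine (Finset.set_ncard_biUnion_le _ _).trans ?_
    refine (Finset.sum_le_card_nsmul _ _ m fun j _ => hF j).trans ?_
    rw [Finset.card_univ, Fintype.card_fin, smul_eq_mul]
  refine (Set.ncard_le_ncard hsub (Set.toFinite _)).trans ((Set.ncard_union_le _ _).trans ?_)
  refine Nat.add_le_add ((hU F1 _ hF1).trans (le_of_eq ?_)) ((hU F2 _ hF2).trans (le_of_eq ?_))
  · rw [← mul_assoc]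
  · rw [← mul_assoc]

end Pool.Agent.Y43.PK
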