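import Pool.Agent.Y494.PK.Stm

/-! The gap lemma: PK-GAP. -/

set_option autoImplicit false

namespace Pool.Agent.Y43.PK

open Classical Pool.Agent.Y494.PK

/-- a path meets at most `2 l` bands -/
theorem bands_le {V : Type} [Fintype V] {G : SimpleGraph V} {l : ℕ} (hl : 1 ≤ l) (eps : ℕ → ℝ)
    (hanti : Antitone eps) (J : ℕ) (p : (Fin l → V) × (Fin l → V)) :
    ((Finset.range J).filter (fun j => ∃ v : V, (∃ i, p.1 i = v ∨ p.2 i = v) ∧
      eps (j + 1) * (Fintype.card V : ℝ) ≤ (dg G v : ℝ) ∧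
      (dg G v : ℝ) < eps j * (Fintype.card V : ℝ))).card ≤ 2 * l := by
  have hne : Nonempty (Fin l ⊕ Fin l) := ⟨Sum.inl ⟨0, hl⟩⟩
  have hx : ∀ j, (∃ v : V, (∃ i, p.1 i = v ∨ p.2 i = v) ∧
      eps (j + 1) * (Fintype.card V : ℝ) ≤ (dg G v : ℝ) ∧
      (dg G v : ℝ) < eps j * (Fintype.card V : ℝ)) →
      ∃ x : Fin l ⊕ Fin l, eps (j + 1) * (Fintype.card V : ℝ) ≤ (dg G (Sum.elim p.1 p.2 x) : ℝ) ∧
        (dg G (Sum.elim p.1 p.2 x) : ℝ) < eps j * (Fintype.card V : ℝ) := by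
    rintro j ⟨v, ⟨i, hi | hi⟩, h1⟩
    · exact ⟨Sum.inl i, by rw [Sum.elim_inl, hi]; exact h1⟩
    · exact ⟨Sum.inr i, by rw [Sum.elim_inr, hi]; exact h1⟩
  choose! f hf using hx
  have hcard : (Finset.univ : Finset (Fin l ⊕ Fin l)).card = 2 * l := by
    rw [Finset.card_univ, Fintype.card_sum, Fintype.card_fin]
    ring
  rw [← hcard]
  refine Finset.card_le_card_of_injOn f (fun _ _ => Finset.mem_coe.2 (Finset.mem_univ _)) ?_
  have hn : (0 : ℝ) ≤ (Fintype.card V : ℝ) := Nat.cast_nonneg _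
  have key : ∀ j j' : ℕ, j < j' →
      eps (j + 1) * (Fintype.card V : ℝ) ≤ (dg G (Sum.elim p.1 p.2 (f j)) : ℝ) →
      (dg G (Sum.elim p.1 p.2 (f j')) : ℝ) < eps j' * (Fintype.card V : ℝ) → f j ≠ f j' := by
    intro j j' hj h1 h2 he
    rw [he] at h1
    have h3 : eps j' * (Fintype.card V : ℝ) ≤ eps (j + 1) * (Fintype.card V : ℝ) :=
      mul_le_mul_of_nonneg_right (hanti hj) hn
    linarith
  intro j hj j' hj' he
  rw [Finset.mem_coe, Finset.mem_filter] at hj hj'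
  obtain ⟨a1, a2⟩ := hf j hj.2
  obtain ⟨b1, b2⟩ := hf j' hj'.2
  rcases lt_trichotomy j j' with h | h | h
  · exact absurd he (key j j' h a1 b2)
  · exact h
  · exact absurd he.symm (key j' j h b1 a2)

theorem gap (hA : S_A5) : S_GAP := by
  intro l hl δ hδ g hg
  set eps : ℕ → ℝ := fun j => g^[j] 1 with heps
  have es : ∀ j, eps (j + 1) = g (eps j) := fun j => Function.iterate_succ_apply' g j 1
  have epos : ∀ j, 0 < eps j := by
    intro j
    induction j with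
    | zero => exact one_pos
    | succ j ih => rw [es]; exact (hg _ ih).1
  have hanti : Antitone eps := antitone_nat_of_succ_le fun j => by
    rw [es]; exact (hg _ (epos j)).2
  obtain ⟨J, hJ⟩ := exists_nat_gt ((2 * l * (4 * l) ^ l : ℝ) / δ)
  have hJpos : 0 < J := by
    have h0 : (0 : ℝ) ≤ (2 * l * (4 * l) ^ l : ℝ) / δ := by positivity
    exact_mod_cast lt_of_le_of_lt h0 hJ
  refine ⟨eps J, epos J, ?_⟩
  intro V _ G hG
  by_contra hc
  push Not at hc
  have h1 : ∀ j ∈ Finset.range J, δ * (Fintype.card V : ℝ) ^ l <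
      (((DP G l).toFinset.filter (fun p => ∃ v : V, (∃ i, p.1 i = v ∨ p.2 i = v) ∧
      eps (j + 1) * (Fintype.card V : ℝ) ≤ (dg G v : ℝ) ∧
      (dg G v : ℝ) < eps j * (Fintype.card V : ℝ))).card : ℝ) := by
    intro j hj
    rw [Finset.mem_range] at hj
    have h2 := hc (eps j) (hanti (Nat.zero_le j)) (hanti hj.le) (by rw [← es]; exact hanti hj)
    rw [← es] at h2
    refine lt_of_lt_of_eq h2 ?_
    rw [Set.ncard_eq_toFinset_card']
    congr 2
    ext p
    rw [Set.mem_toFinset, Finset.mem_filter, Set.mem_toFinset]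
    rfl
  have h2 : ∑ j ∈ Finset.range J, ((DP G l).toFinset.filter (fun p => ∃ v : V,
      (∃ i, p.1 i = v ∨ p.2 i = v) ∧
      eps (j + 1) * (Fintype.card V : ℝ) ≤ (dg G v : ℝ) ∧
      (dg G v : ℝ) < eps j * (Fintype.card V : ℝ))).card ≤ (DP G l).ncard * (2 * l) := by
    have h3 := Finset.sum_card_bipartiteAbove_eq_sum_card_bipartiteBelow (s := Finset.range J)
      (t := (DP G l).toFinset) (fun (j : ℕ) (p : (Fin l → V) × (Fin l → V)) => ∃ v : V,
      (∃ i, p.1 i = v ∨ p.2 i = v) ∧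
      eps (j + 1) * (Fintype.card V : ℝ) ≤ (dg G v : ℝ) ∧
      (dg G v : ℝ) < eps j * (Fintype.card V : ℝ))
    unfold Finset.bipartiteAbove Finset.bipartiteBelow at h3
    rw [h3, Set.ncard_eq_toFinset_card', ← smul_eq_mul, ← Finset.sum_const]
    exact Finset.sum_le_sum fun p _ => bands_le hl eps hanti J p
  have h3 := hA V G l hG
  have h4 : (J : ℝ) * (δ * (Fintype.card V : ℝ) ^ l) < ∑ j ∈ Finset.range J,
      (((DP G l).toFinset.filter (fun p => ∃ v : V, (∃ i, p.1 i = v ∨ p.2 i = v) ∧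
      eps (j + 1) * (Fintype.card V : ℝ) ≤ (dg G v : ℝ) ∧
      (dg G v : ℝ) < eps j * (Fintype.card V : ℝ))).card : ℝ) := by
    have h5 := Finset.sum_lt_sum_of_nonempty (Finset.nonempty_range_iff.2 hJpos.ne') h1
    rwa [Finset.sum_const, Finset.card_range, nsmul_eq_mul] at h5
  have h5 : (∑ j ∈ Finset.range J,
      (((DP G l).toFinset.filter (fun p => ∃ v : V, (∃ i, p.1 i = v ∨ p.2 i = v) ∧
      eps (j + 1) * (Fintype.card V : ℝ) ≤ (dg G v : ℝ) ∧
      (dg G v : ℝ) < eps j * (Fintype.card V : ℝ))).card : ℝ)) ≤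
      (4 * l * (Fintype.card V : ℝ)) ^ l * (2 * l) := by
    have h6 := h2.trans (Nat.mul_le_mul_right (2 * l) h3)
    exact_mod_cast h6
  rw [div_lt_iff₀ hδ] at hJ
  have hn : (0 : ℝ) ≤ (Fintype.card V : ℝ) ^ l := by positivity
  have h7 := mul_le_mul_of_nonneg_right hJ.le hn
  have e : (4 * l * (Fintype.card V : ℝ)) ^ l * (2 * l) =
      (2 * l * (4 * l) ^ l : ℝ) * (Fintype.card V : ℝ) ^ l := by
    rw [mul_pow]; ring
  rw [e] at h5
  nlinarith

end Pool.Agent.Y43.PK
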